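import Pool.Agent.PRL.Def
import Pool.Agent.PRT.GPT4

/-! # The generators and the search in polynomial time -/

set_option autoImplicit false

namespace Pool.Agent.PRL

open Pool.Agent.PRT Pool.NPC Pool.NPC.Enc Pool.NPC.Tr Polynomial

variable {α β γ : Type} [Enc α] [Enc β] [Enc γ]

theorem BT.zl {p N : α → ℕ} (hp : BT p) (hN : PT N) : BT (fun a => zl (p a) (N a)) := by
  have hp' : BT (fun y : α × ℕ => p y.1) := BT.comp (F := p) hp PT.fst
  exact BT.iel (g := fun x : α × ℕ => PRT.rn (p x.1) x.2) hp (BT.rn hp' (BT.ofUnary PT.snd)) hN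
    (BT.const 2)

theorem PT.fl {p N : α → ℕ} (hp : BT p) (hN : PT N) : PT (fun a => fl (p a) (N a)) :=
  PT.ev hp (BT.const 2) hp.sizeU (BT.zl hp hN)

theorem BT.rl {p N d : α → ℕ} (hp : BT p) (hN : PT N) (hd : BT d) :
    BT (fun a => rl (p a) (N a) (d a)) :=
  BT.sq hp (BT.zl hp hN) (PT.fl hp hN) hd

theorem BT.el {p N d x y : α → ℕ} (hp : BT p) (hN : PT N) (hd : BT d) (hx : BT x) (hy : BT y) :
    BT (fun a => el (p a) (N a) (d a) (x a) (y a)) := by
  have hc : BT (fun a => N a * (p a - 1)) := BT.mul (BT.ofUnary hN) (BT.sub hp (BT.const 1))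
  exact BT.mmod (BT.const 1) (BT.add (BT.add hx hc) (BT.mul (BT.add hy hc) (BT.rl hp hN hd))) hp

theorem BT.gE {p N i : α → ℕ} (hp : BT p) (hN : PT N) (hi : PT i) :
    BT (fun a => gE (p a) (N a) (i a)) := by
  have hb : PT (fun a => 2 * N a + 1) := PT.succ (PT.mul (PT.const 2) hN)
  have hj : PT (fun a => i a - 1) := PT.pred hi
  have h : BT (fun a => elI (p a) (N a) (i a - 1)) :=
    BT.el hp hN (BT.ofUnary (PT.div hj (PT.mul hb hb)))
      (BT.ofUnary (PT.mod (PT.div hj hb) hb)) (BT.ofUnary (PT.mod hj hb))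
  exact BT.ite (BT.eq h (BT.const 0)) (BT.const 1) h

theorem PT.BE {N : α → ℕ} (hN : PT N) : PT (fun a => BE (N a)) := by
  have hb : PT (fun a => 2 * N a + 1) := PT.succ (PT.mul (PT.const 2) hN)
  exact PT.mul (PT.succ hN) (PT.mul hb hb)

theorem PT.RL {N : α → ℕ} (hN : PT N) : PT (fun a => RL (N a)) :=
  PT.mul (PT.mul hN hN) (PT.mul hN hN)

theorem BT.gL {p N i : α → ℕ} (hp : BT p) (hN : PT N) (hi : PT i) :
    BT (fun a => gL (p a) (N a) (i a)) := by
  exact BT.ite (PT.le hi hN) (BT.rn hp (BT.ofUnary hi)) (BT.gE hp hN (PT.sub hi hN))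

theorem PT.stopL {p N : α → ℕ} (hp : BT p) (hN : PT N) : PT (fun a => stopL (p a) (N a)) := by
  have hs : PT (fun a => Nat.size (p a)) := hp.sizeU
  have hsN : PT (fun a => Nat.size (N a)) := (BT.ofUnary hN).sizeU
  have hss : PT (fun a => Nat.size (Nat.size (p a))) := (BT.ofUnary hs).sizeU
  have hp' : BT (fun y : α × ℕ => p y.1) := BT.comp (F := p) hp PT.fst
  have hN' : PT (fun y : α × ℕ => N y.1) := PT.comp (g := N) hN PT.fst
  exact PT.and (PT.le (PT.mul hs hss) (PT.mul hsN hsN))
    (PT.okC (g := fun y : α × ℕ => PRL.gL (p y.1) (N y.1) y.2) hp (BT.gL hp' hN' PT.snd)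
      (PT.add hN (PT.BE hN)) (PT.RL hN))

theorem PT.stepL {p : α → ℕ} {x : α → ℕ × Bool} (hp : BT p) (hx : PT x) :
    PT (fun a => stepL (p a) (x a)) := by
  have h1 : PT (fun a => (x a).1) := PT.fst' hx
  have h2 : PT (fun a => (x a).2) := PT.snd' hx
  exact PT.cond h2 hx (PT.cond (PT.stopL hp h1) (PT.pair h1 (PT.const true))
    (PT.pair (PT.mul (PT.const 2) h1) (PT.const false)))

private theorem fold_step (l m : List Bool) (x : ℕ × Bool) :
    m.foldl (fun s _ => (s.1, stepL (bval s.1) s.2)) (l, x) =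
      (l, Nat.rec (motive := fun _ => ℕ × Bool) x (fun _ s => stepL (bval l) s) m.length) := by
  induction m using List.reverseRecOn with
  | nil => rfl
  | append_singleton m b ih =>
    rw [List.foldl_append, ih]
    simp

/-- the state after the whole search and after a part of it -/
theorem srchL_eq (l : List Bool) : srchL l = (l, sL (bval l) l.length) := by
  unfold srchL sL
  rw [fold_step]

private theorem sL_mono_succ (p k : ℕ) : (sL p k).1 ≤ (sL p (k + 1)).1 := by
  have h : sL p (k + 1) = stepL p (sL p k) := rfl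
  rw [h]
  unfold stepL
  split_ifs
  · exact le_rfl
  · exact le_rfl
  · show (sL p k).1 ≤ 2 * (sL p k).1
    omega

theorem sL_mono (p : ℕ) {k k' : ℕ} (h : k ≤ k') : (sL p k).1 ≤ (sL p k').1 :=
  monotone_nat_of_le_succ (f := fun k => (sL p k).1) (sL_mono_succ p) h

/-- `MC.foldl` with `M l = (sL (bval l) l.length).1` -/
theorem MC.srchL : MC srchL (fun l => (sL (bval l) l.length).1) := by
  have hg : PT (fun y : List Bool × (Bool × (List Bool × (ℕ × Bool))) =>
      (y.2.2.1, stepL (bval y.2.2.1) y.2.2.2)) := by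
    have h1 : PT (fun y : List Bool × (Bool × (List Bool × (ℕ × Bool))) => y.2.2.1) :=
      PT.fst' (PT.snd' (PT.snd' PT.id))
    have h2 : PT (fun y : List Bool × (Bool × (List Bool × (ℕ × Bool))) => y.2.2.2) :=
      PT.snd' (PT.snd' (PT.snd' PT.id))
    exact PT.pair h1 (PT.stepL (BT.bval h1) h2)
  exact MC.foldl (l := fun l : List Bool => l) (i := fun l : List Bool => (l, (1, false)))
    (g := fun y : List Bool × (Bool × (List Bool × (ℕ × Bool))) =>
      (y.2.2.1, stepL (bval y.2.2.1) y.2.2.2))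
    PT.id (PT.pair PT.id (PT.const (1, false))) hg (fun l => (sL (bval l) l.length).1) (X + C 1)
    (fun l l1 hl => by
      have h3 : sz (l1.foldl (fun s b => ((fun y : List Bool × (Bool × (List Bool × (ℕ × Bool))) =>
          (y.2.2.1, stepL (bval y.2.2.1) y.2.2.2)) (l, (b, s)))) (l, (1, false))) =
          l.length + (sL (bval l) l1.length).1 + 1 := by
        have h4 := fold_step l l1 (1, false)
        show sz (l1.foldl (fun s _ => (s.1, stepL (bval s.1) s.2)) (l, (1, false))) = _
        rw [h4]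
        simp only [sz_prod, sz_list, sz_nat, sz_bool]
        rfl
      rw [h3]
      have h5 := sL_mono (bval l) hl.length_le
      simp only [eval_add, eval_X, eval_C, sz_list]
      omega)

end Pool.Agent.PRL
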