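import Pool.Agent.PRT.GS

/-!
# The generating set of theorem (E), with natural numbers

`zl` is the 2-part with the largest order among the residues of `-1, 2, ..., N`; with it square roots
`rl` modulo `p` are computed; the generators are the residues `(x - N) + (y - N) r` with `x, y` from
`0` to `2 N`, `r` the computed square root of `d`, `d` from `0` to `N`.
-/

set_option autoImplicit false

namespace Pool.Agent.PRL

open Pool.Agent.PRT

/-- the 2-part of the largest order among the residues of `-1, 2, ..., N` -/
def zl (p N : ℕ) : ℕ := iel p (fun i => rn p i) N 2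

/-- the exponent of its order -/
def fl (p N : ℕ) : ℕ := ev p 2 (Nat.size p) (zl p N)

/-- the square root of `d` (if it can be computed with `zl`) -/
def rl (p N d : ℕ) : ℕ := sq p (zl p N) (fl p N) d

/-- the residue of `(x - N) + (y - N) r` -/
def el (p N d x y : ℕ) : ℕ :=
  mmod 1 (x + N * (p - 1) + (y + N * (p - 1)) * rl p N d) p

/-- the residue number `i`, the digits of `i` in base `2 N + 1` are `d, x, y` -/
def elI (p N i : ℕ) : ℕ :=
  el p N (i / ((2 * N + 1) * (2 * N + 1))) (i / (2 * N + 1) % (2 * N + 1)) (i % (2 * N + 1))

/-- the generator number `i ≥ 1` -/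
def gE (p N i : ℕ) : ℕ := if elI p N (i - 1) = 0 then 1 else elI p N (i - 1)

/-- the number of these generators -/
def BE (N : ℕ) : ℕ := (N + 1) * ((2 * N + 1) * (2 * N + 1))

/-- all generators: `-1, 2, ..., N` and the residues -/
def gL (p N i : ℕ) : ℕ := if i ≤ N then rn p i else gE p N (i - N)

/-- the bound for the prime factors -/
def RL (N : ℕ) : ℕ := N * N * (N * N)

/-- the condition to stop the search -/
def stopL (p N : ℕ) : Bool :=
  decide (Nat.size p * Nat.size (Nat.size p) ≤ Nat.size N * Nat.size N) &&
    okC p (gL p N) (N + BE N) (RL N)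

/-- one step of the search -/
def stepL (p : ℕ) (x : ℕ × Bool) : ℕ × Bool :=
  if x.2 = true then x else if stopL p x.1 = true then (x.1, true) else (2 * x.1, false)

/-- the search: `k` steps -/
def sL (p k : ℕ) : ℕ × Bool :=
  Nat.rec (motive := fun _ => ℕ × Bool) (1, false) (fun _ s => stepL p s) k

/-- the search as a fold over the input string -/
def srchL (l : List Bool) : List Bool × (ℕ × Bool) :=
  l.foldl (fun s _ => (s.1, stepL (bval s.1) s.2)) (l, (1, false))

end Pool.Agent.PRL
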