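import Pool.Agent.PRL.Def

/-! # Functions bounded by `2 ^ (C (sqrt(n size n) + 1))` -/

set_option autoImplicit false

namespace Pool.Agent.PRL

open Polynomial

/-- the exponent `[sqrt(n size n)]` of the running time -/
def ex (n : ℕ) : ℕ := Nat.sqrt (n * Nat.size n)

/-- `T n ≤ 2 ^ (C ([sqrt(n size n)] + 1))` for some `C` -/
def Half (T : ℕ → ℕ) : Prop := ∃ C : ℕ, ∀ n : ℕ, T n ≤ 2 ^ (C * (ex n + 1))

theorem Half.mono {S T : ℕ → ℕ} (hT : Half T) (h : ∀ n, S n ≤ T n) : Half S := by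
  obtain ⟨C, hC⟩ := hT
  exact ⟨C, fun n => (h n).trans (hC n)⟩

theorem half_const (c : ℕ) : Half (fun _ => c) := by
  refine ⟨c, fun n => ?_⟩
  have h1 : c ≤ 2 ^ c := Nat.lt_two_pow_self.le
  exact h1.trans (Nat.pow_le_pow_right (by norm_num) (Nat.le_mul_of_pos_right _ (Nat.succ_pos _)))

theorem half_mul {S T : ℕ → ℕ} (hS : Half S) (hT : Half T) : Half (fun n => S n * T n) := by
  obtain ⟨C, hC⟩ := hS
  obtain ⟨D, hD⟩ := hT
  refine ⟨C + D, fun n => ?_⟩
  rw [add_mul, pow_add]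
  exact Nat.mul_le_mul (hC n) (hD n)

theorem half_add {S T : ℕ → ℕ} (hS : Half S) (hT : Half T) : Half (fun n => S n + T n) := by
  obtain ⟨C, hC⟩ := hS
  obtain ⟨D, hD⟩ := hT
  refine ⟨C + D + 1, fun n => ?_⟩
  have h1 : S n ≤ 2 ^ ((C + D) * (ex n + 1)) :=
    (hC n).trans (Nat.pow_le_pow_right (by norm_num) (Nat.mul_le_mul_right _ (by omega)))
  have h2 : T n ≤ 2 ^ ((C + D) * (ex n + 1)) :=
    (hD n).trans (Nat.pow_le_pow_right (by norm_num) (Nat.mul_le_mul_right _ (by omega)))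
  calc S n + T n ≤ 2 ^ ((C + D) * (ex n + 1)) * 2 := by omega
    _ = 2 ^ ((C + D) * (ex n + 1) + 1) := (pow_succ _ _).symm
    _ ≤ 2 ^ ((C + D + 1) * (ex n + 1)) := by
        refine Nat.pow_le_pow_right (by norm_num) ?_
        have : (C + D + 1) * (ex n + 1) = (C + D) * (ex n + 1) + (ex n + 1) := by ring
        omega

theorem half_id : Half (fun n => n) := by
  refine ⟨2, fun n => ?_⟩
  rcases Nat.eq_zero_or_pos n with h | h
  · rw [h]; exact Nat.zero_le _
  have h1 : 1 ≤ Nat.size n := Nat.size_pos.2 h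
  have h2 : Nat.sqrt n ≤ ex n := Nat.sqrt_le_sqrt (Nat.le_mul_of_pos_right _ h1)
  have h3 : n < (Nat.sqrt n + 1) * (Nat.sqrt n + 1) := Nat.lt_succ_sqrt n
  have h4 : Nat.sqrt n + 1 ≤ 2 ^ (ex n + 1) :=
    (Nat.lt_two_pow_self (n := Nat.sqrt n + 1)).le.trans
      (Nat.pow_le_pow_right (by norm_num) (by omega))
  calc n ≤ (Nat.sqrt n + 1) * (Nat.sqrt n + 1) := h3.le
    _ ≤ 2 ^ (ex n + 1) * 2 ^ (ex n + 1) := Nat.mul_le_mul h4 h4
    _ = 2 ^ (2 * (ex n + 1)) := by rw [← pow_add]; congr 1; ring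

theorem Half.poly {T : ℕ → ℕ} (hT : Half T) (Q : ℕ[X]) : Half (fun n => Q.eval (n + T n)) := by
  induction Q using Polynomial.induction_on' with
  | add p q hp hq =>
    simp only [eval_add]
    exact half_add hp hq
  | monomial k c =>
    simp only [eval_monomial]
    refine half_mul (half_const c) ?_
    induction k with
    | zero =>
      simp only [pow_zero]
      exact half_const 1
    | succ k ih =>
      simp only [pow_succ]
      exact half_mul ih (half_add half_id hT)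

end Pool.Agent.PRL
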