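import Pool.Agent.PRL.Rts
import Pool.Agent.LHf.Gene
import Pool.Agent.PRL.Grw

/-! # The generators -/

set_option autoImplicit false

namespace Pool.Agent.PRL

open Pool.Agent.PRT Finset

theorem el_cast (p : ℕ) [hpf : Fact p.Prime] (N d x y : ℕ) : ((el p N d x y : ℕ) : ZMod p) =
    ((x : ZMod p) - N) + ((y : ZMod p) - N) * ((rl p N d : ℕ) : ZMod p) := by
  have hp : p.Prime := hpf.out
  have hp1 : ((p - 1 : ℕ) : ZMod p) = -1 := by
    rw [Nat.cast_sub hp.one_lt.le]
    simp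
  unfold el
  rw [mmod_cast _ _ hp.ne_zero]
  push_cast
  rw [hp1]
  ring

theorem el_lt (p : ℕ) [hpf : Fact p.Prime] (N d x y : ℕ) : el p N d x y < p := by
  have hp : p.Prime := hpf.out
  unfold el mmod
  rw [if_neg hp.ne_zero]
  exact Nat.mod_lt _ hp.pos

theorem gE_cast (p : ℕ) [hpf : Fact p.Prime] (N i : ℕ) :
    ((gE p N i : ℕ) : ZMod p) = (toU p (gE p N i) : ZMod p) := by
  have h : ((gE p N i : ℕ) : ZMod p) ≠ 0 := by
    unfold gE
    split_ifs with h
    · simp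
    · rw [Ne, ZMod.natCast_eq_zero_iff]
      intro hd
      exact h (Nat.eq_zero_of_dvd_of_lt hd (el_lt p _ _ _ _))
  rw [toU_val p h]

theorem gL_cast (p : ℕ) [hp : Fact p.Prime] (N i : ℕ) :
    ((gL p N i : ℕ) : ZMod p) = (toU p (gL p N i) : ZMod p) := by
  unfold gL
  split_ifs with h
  · have h1 : ((rn p i : ℕ) : ZMod p) ≠ 0 := by
      rw [rn_cast]; exact (aU p i).ne_zero
    rw [toU_val p h1]
  · exact gE_cast p N (i - N)

/-- the group of all generators contains `-1, 2, ..., N` -/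
theorem genSub_le_gL (p : ℕ) [hp : Fact p.Prime] (N : ℕ) :
    PrimRoot.genSub (aU p) N ≤ PrimRoot.genSub (fun i => toU p (gL p N i)) (N + BE N) := by
  unfold PrimRoot.genSub
  rw [Subgroup.closure_le]
  rintro _ ⟨i, hi, rfl⟩
  apply Subgroup.subset_closure
  refine ⟨i, ⟨hi.1, by have := hi.2; omega⟩, ?_⟩
  apply Units.ext
  show ((toU p (gL p N i) : (ZMod p)ˣ) : ZMod p) = _
  rw [← gL_cast]
  unfold gL
  rw [if_pos hi.2, rn_cast]

theorem genSub_gE_le_gL (p : ℕ) [hp : Fact p.Prime] (N : ℕ) :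
    PrimRoot.genSub (fun i => toU p (gE p N i)) (BE N) ≤
      PrimRoot.genSub (fun i => toU p (gL p N i)) (N + BE N) := by
  unfold PrimRoot.genSub
  rw [Subgroup.closure_le]
  rintro _ ⟨i, hi, rfl⟩
  have h1 := hi.1
  have h2 := hi.2
  apply Subgroup.subset_closure
  refine ⟨N + i, ⟨by omega, by omega⟩, ?_⟩
  show toU p (gL p N (N + i)) = toU p (gE p N i)
  have h3 : gL p N (N + i) = gE p N i := by
    unfold gL
    rw [if_neg (by omega), Nat.add_sub_cancel_left]
  rw [h3]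

/-- the number with digits `d, x, y` -/
theorem digits (N d x y : ℕ) (hd : d ≤ N) (hx : x ≤ 2 * N) (hy : y ≤ 2 * N) :
    ∃ i < BE N, i / ((2 * N + 1) * (2 * N + 1)) = d ∧ i / (2 * N + 1) % (2 * N + 1) = x ∧
      i % (2 * N + 1) = y := by
  obtain ⟨b, hb⟩ : ∃ b, b = 2 * N + 1 := ⟨_, rfl⟩
  have hb0 : 0 < b := by omega
  have hxb : x < b := by omega
  have hyb : y < b := by omega
  unfold BE
  rw [← hb]
  refine ⟨y + b * (x + b * d), ?_, ?_, ?_, ?_⟩
  · calc y + b * (x + b * d) < b + b * (x + b * d) := by omega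
      _ = b * (x + 1 + b * d) := by ring
      _ ≤ b * (b + b * d) := Nat.mul_le_mul_left _ (by omega)
      _ = (d + 1) * (b * b) := by ring
      _ ≤ (N + 1) * (b * b) := Nat.mul_le_mul_right _ (by omega)
  · rw [← Nat.div_div_eq_div_mul, Nat.add_mul_div_left _ _ hb0, Nat.div_eq_of_lt hyb, zero_add,
      Nat.add_mul_div_left _ _ hb0, Nat.div_eq_of_lt hxb, zero_add]
  · rw [Nat.add_mul_div_left _ _ hb0, Nat.div_eq_of_lt hyb, zero_add, Nat.add_mul_mod_self_left,
      Nat.mod_eq_of_lt hxb]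
  · rw [Nat.add_mul_mod_self_left, Nat.mod_eq_of_lt hyb]

theorem gen_top : ∃ C : ℕ, ∀ (p : ℕ) [Fact p.Prime], C ≤ p → ∀ N : ℕ, N < p →
    2 ^ (C * (ex (Nat.size p) + 1)) ≤ N →
      PrimRoot.genSub (fun i => toU p (gE p N i)) (BE N) = ⊤ := by
  obtain ⟨C, hC⟩ := LHf.genE
  refine ⟨C, fun p hpf hp N hNp hN => ?_⟩
  have h := hC p hp N hN (AL p N) (fun d => ((rl p N d : ℕ) : ZMod p))
    (fun q q' hq hq' _ hqN hA => rl_sq p hNp q q' hq hq' hqN hA)
  rw [eq_top_iff, ← h, Subgroup.closure_le]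
  rintro u ⟨d, x, y, hd, hx, hy, hu⟩
  have hx' := abs_le.1 hx
  have hy' := abs_le.1 hy
  obtain ⟨i, hi, h1, h2, h3⟩ := digits N d (x + N).toNat (y + N).toNat hd (by omega) (by omega)
  have hcx : (((x + N).toNat : ℕ) : ZMod p) - (N : ZMod p) = (x : ZMod p) := by
    have h5 : (((x + N).toNat : ℕ) : ℤ) = x + N := Int.toNat_of_nonneg (by omega)
    have h6 := congrArg (fun t : ℤ => (t : ZMod p)) h5
    simp only [Int.cast_natCast, Int.cast_add] at h6
    rw [h6]
    ring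
  have hcy : (((y + N).toNat : ℕ) : ZMod p) - (N : ZMod p) = (y : ZMod p) := by
    have h5 : (((y + N).toNat : ℕ) : ℤ) = y + N := Int.toNat_of_nonneg (by omega)
    have h6 := congrArg (fun t : ℤ => (t : ZMod p)) h5
    simp only [Int.cast_natCast, Int.cast_add] at h6
    rw [h6]
    ring
  have hel : ((elI p N i : ℕ) : ZMod p) = (u : ZMod p) := by
    unfold elI
    rw [h1, h2, h3, el_cast, hcx, hcy, hu]
  have hne : elI p N i ≠ 0 := by
    intro h0
    rw [h0, Nat.cast_zero] at hel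
    exact u.ne_zero hel.symm
  have hg : gE p N (i + 1) = elI p N i := by
    unfold gE
    rw [Nat.add_sub_cancel, if_neg hne]
  have hmem : i + 1 ∈ Icc 1 (BE N) := by
    rw [Finset.mem_Icc]
    omega
  have hmem2 := PrimRoot.a_mem (fun i => toU p (gE p N i)) (BE N) hmem
  have hueq : toU p (gE p N (i + 1)) = u := by
    apply Units.ext
    rw [← gE_cast, hg, hel]
  show u ∈ PrimRoot.genSub (fun i => toU p (gE p N i)) (BE N)
  rw [← hueq]
  exact hmem2

end Pool.Agent.PRL
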