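import Pool.Agent.PRL.Elt
import Pool.Agent.MP_18a8a6_lc.Quant
import Pool.Agent.PRT.AN4

/-! # An index bound -/

set_option autoImplicit false

namespace Pool.Agent.PRL

open Pool.Agent.PRT

/-- numbers `n` with `n size n ≤ S ^ 2`: `S` is large -/
theorem S_large (K : ℕ) : ∃ n0 : ℕ, ∀ n S : ℕ, n0 ≤ n → n * Nat.size n ≤ S * S →
    K * Nat.size n ≤ S := by
  refine ⟨2 ^ (4 * (K * K) + 4), fun n S hn hS => ?_⟩
  have h1 := LHf.gene.size_small (K * K) n hn
  have h2 : (K * Nat.size n) * (K * Nat.size n) ≤ S * S := by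
    calc (K * Nat.size n) * (K * Nat.size n) = (K * K * Nat.size n) * Nat.size n := by ring
      _ ≤ n * Nat.size n := Nat.mul_le_mul_right _ h1
      _ ≤ S * S := hS
  exact Nat.mul_self_le_mul_self_iff.1 h2

theorem two_pow_le {N : ℕ} (h : 1 ≤ Nat.size N) : 2 ^ (Nat.size N - 1) ≤ N :=
  Nat.lt_size.1 (by omega)

/-- The index of the group generated by `-1, 2, ..., N` is at most `N ^ 4`, if
`n * size n ≤ (size N) ^ 2`, `n = size p`. -/
theorem index_le : ∃ p0 : ℕ, ∀ (p : ℕ) [Fact p.Prime], p0 ≤ p → ∀ N : ℕ, N < p →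
    Nat.size p * Nat.size (Nat.size p) ≤ Nat.size N * Nat.size N →
      (PrimRoot.genSub (aU p) N).index ≤ RL N := by
  obtain ⟨n0, hn0⟩ := S_large 20
  refine ⟨2 ^ (n0 + 2 ^ 5 + 8), fun p hpf hp N hNp hN => ?_⟩
  have hpp : p.Prime := hpf.out
  obtain ⟨n, hn⟩ : ∃ n, n = Nat.size p := ⟨_, rfl⟩
  obtain ⟨s, hs⟩ : ∃ s, s = Nat.size n := ⟨_, rfl⟩
  obtain ⟨S, hS⟩ : ∃ S, S = Nat.size N := ⟨_, rfl⟩
  rw [← hn, ← hS] at hN
  have hnlt : n0 + 2 ^ 5 + 8 < n := by rw [hn]; exact Nat.lt_size.2 hp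
  have hs6 : 5 < s := by rw [hs]; exact Nat.lt_size.2 (by omega)
  have hS20 : 20 * s ≤ S := by
    rw [hs]
    exact hn0 n S (by omega) hN
  rw [← hs] at hN
  have hn2s : n < 2 ^ s := by rw [hs]; exact Nat.lt_size_self n
  have hNS : 2 ^ (S - 1) ≤ N := by
    rw [hS]; exact two_pow_le (by omega)
  have hsq : 4 * n ≤ N := by
    calc 4 * n ≤ 2 ^ 2 * 2 ^ s := by omega
      _ = 2 ^ (2 + s) := (pow_add 2 2 s).symm
      _ ≤ 2 ^ (S - 1) := Nat.pow_le_pow_right (by norm_num) (by omega)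
      _ ≤ N := hNS
  have hN6 : 6 ≤ N := by omega
  obtain ⟨M, hM⟩ : ∃ M, M = N / (4 * n) := ⟨_, rfl⟩
  obtain ⟨u, hu⟩ : ∃ u, u = Nat.log N (p - 1) := ⟨_, rfl⟩
  have hp2 := hpp.two_le
  have hM1 : 1 ≤ M := by
    rw [hM]; exact (Nat.one_le_div_iff (by omega)).2 hsq
  have hM4 : 4 * n * M ≤ N := by rw [hM]; exact Nat.mul_div_le _ _
  have hNM : N ≤ 8 * n * M := by
    have h2 : N < 4 * n * (M + 1) := by
      rw [hM]; exact Nat.lt_mul_div_succ N (by omega)
    nlinarith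
  have hu0 : 0 < u := by rw [hu]; exact Nat.log_pos (by omega) (by omega)
  have hu1 : N ^ u ≤ p - 1 := by rw [hu]; exact Nat.pow_log_le_self N (by omega)
  have hu2 : p - 1 < N ^ (u + 1) := by rw [hu]; exact Nat.lt_pow_succ_log_self (by omega) _
  have hpn : p < 2 ^ n := by rw [hn]; exact Nat.lt_size_self p
  have hcard := PrimRoot.card_ge_pow p hN6 hNp (by omega) hpn hM4 hM1 hu0
  -- u is small
  have hun : (S - 1) * u < n := by
    have h2 : 2 ^ ((S - 1) * u) < 2 ^ n := by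
      calc 2 ^ ((S - 1) * u) = (2 ^ (S - 1)) ^ u := pow_mul 2 _ _
        _ ≤ N ^ u := Nat.pow_le_pow_left hNS u
        _ < 2 ^ n := by omega
    exact (Nat.pow_lt_pow_iff_right (by norm_num)).1 h2
  have hsu : (s + 3) * u ≤ 3 * (S - 1) := by
    -- (S - 1) * s * u < n * s ≤ S * S
    have h1 : (S - 1) * (s * u) < S * S := by
      calc (S - 1) * (s * u) = (S - 1) * u * s := by ring
        _ < n * s := (Nat.mul_lt_mul_right (by omega)).2 hun
        _ ≤ S * S := hN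
    have h2 : s * u ≤ S + 1 := by
      by_contra h
      push Not at h
      have h3 : (S - 1) * (S + 2) ≤ (S - 1) * (s * u) := Nat.mul_le_mul_left _ (by omega)
      obtain ⟨T, rfl⟩ : ∃ T, S = T + 1 := ⟨S - 1, by omega⟩
      have h4 : (T + 1 - 1) * (T + 1 + 2) = T * T + 3 * T := by
        rw [Nat.add_sub_cancel]; ring
      have h5 : (T + 1) * (T + 1) = T * T + 2 * T + 1 := by ring
      omega
    have h3 : 3 * u ≤ s * u := Nat.mul_le_mul_right _ (by omega)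
    have h4 : (s + 3) * u = s * u + 3 * u := by ring
    omega
  have h8n : (8 * n) ^ u ≤ N * (N * N) := by
    have h2 : 8 * n ≤ 2 ^ (s + 3) := by
      rw [pow_add]; omega
    calc (8 * n) ^ u ≤ (2 ^ (s + 3)) ^ u := Nat.pow_le_pow_left h2 _
      _ = 2 ^ ((s + 3) * u) := (pow_mul 2 _ _).symm
      _ ≤ 2 ^ (3 * (S - 1)) := Nat.pow_le_pow_right (by norm_num) hsu
      _ = 2 ^ (S - 1) * (2 ^ (S - 1) * 2 ^ (S - 1)) := by
          rw [← pow_add, ← pow_add]; congr 1; ring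
      _ ≤ N * (N * N) := Nat.mul_le_mul hNS (Nat.mul_le_mul hNS hNS)
  -- the index
  obtain ⟨H, hH⟩ : ∃ H, H = PrimRoot.genSub (aU p) N := ⟨_, rfl⟩
  rw [← hH]
  have hle : PrimRoot.genSub (PrimRoot.res p) N ≤ H := by
    rw [hH]; exact genSub_le p (by omega)
  have hcard2 : M ^ u ≤ Nat.card H := by
    refine hcard.trans ?_
    exact Subgroup.card_le_of_le hle
  have hmul : Nat.card H * H.index = p - 1 := by
    rw [Subgroup.card_mul_index, Nat.card_eq_fintype_card, ZMod.card_units]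
  have hMu : 0 < M ^ u := Nat.pow_pos (by omega)
  have hfin : M ^ u * H.index ≤ M ^ u * RL N := by
    calc M ^ u * H.index ≤ Nat.card H * H.index := Nat.mul_le_mul_right _ hcard2
      _ = p - 1 := hmul
      _ ≤ N ^ (u + 1) := hu2.le
      _ = N ^ u * N := pow_succ _ _
      _ ≤ (8 * n * M) ^ u * N := Nat.mul_le_mul_right _ (Nat.pow_le_pow_left hNM u)
      _ = (8 * n) ^ u * M ^ u * N := by rw [mul_pow]
      _ ≤ (N * (N * N)) * M ^ u * N := Nat.mul_le_mul_right _ (Nat.mul_le_mul_right _ h8n)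
      _ = M ^ u * RL N := by unfold RL; ring
  exact Nat.le_of_mul_le_mul_left hfin hMu

end Pool.Agent.PRL
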