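import Pool.Agent.PRL.Main
import Pool.Agent.PRL.Idx
import Pool.Agent.PRT.AN7

/-! # The list is good -/

set_option autoImplicit false

namespace Pool.Agent.PRL

open Pool.Agent.PRT Finset

/-- `N ≥ 2 ^ (S - 1)`, `n size n ≤ S ^ 2` -/
theorem size_facts : ∃ n0 : ℕ, ∀ n N : ℕ, n0 ≤ n → n * Nat.size n ≤ Nat.size N * Nat.size N →
    N * n * (2 * 2 ^ ex n) ≤ RL N ∧ 2 ^ ex n ≤ RL N := by
  obtain ⟨n0, hn0⟩ := S_large 20
  refine ⟨n0 + 2, fun n N hn hN => ?_⟩
  obtain ⟨s, hs⟩ : ∃ s, s = Nat.size n := ⟨_, rfl⟩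
  obtain ⟨S, hS⟩ : ∃ S, S = Nat.size N := ⟨_, rfl⟩
  have hS20 : 20 * s ≤ S := by
    rw [hs, hS]
    exact hn0 n _ (by omega) hN
  have hs1 : 1 ≤ s := by rw [hs]; exact Nat.size_pos.2 (by omega)
  have hex : ex n ≤ S := by
    have h1 : Nat.sqrt (n * Nat.size n) ≤ Nat.sqrt (S * S) := by
      rw [hS]; exact Nat.sqrt_le_sqrt hN
    rw [Nat.sqrt_eq] at h1
    exact h1
  have hNS : 2 ^ (S - 1) ≤ N := by
    rw [hS]; exact two_pow_le (by omega)
  have hn2s : n < 2 ^ s := by rw [hs]; exact Nat.lt_size_self n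
  have h2 : n * (2 * 2 ^ ex n) ≤ N * (N * N) := by
    calc n * (2 * 2 ^ ex n) ≤ 2 ^ s * (2 * 2 ^ S) :=
          Nat.mul_le_mul hn2s.le (Nat.mul_le_mul_left _ (Nat.pow_le_pow_right (by norm_num) hex))
      _ = 2 ^ (s + S + 1) := by rw [pow_add, pow_add]; ring
      _ ≤ 2 ^ ((S - 1) + ((S - 1) + (S - 1))) := Nat.pow_le_pow_right (by norm_num) (by omega)
      _ = 2 ^ (S - 1) * (2 ^ (S - 1) * 2 ^ (S - 1)) := by rw [pow_add, pow_add]
      _ ≤ N * (N * N) := Nat.mul_le_mul hNS (Nat.mul_le_mul hNS hNS)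
  have hN1 : 1 ≤ N := Nat.one_le_two_pow.trans hNS
  constructor
  · calc N * n * (2 * 2 ^ ex n) = N * (n * (2 * 2 ^ ex n)) := by ring
      _ ≤ N * (N * (N * N)) := Nat.mul_le_mul_left _ h2
      _ = RL N := by unfold RL; ring
  · calc 2 ^ ex n ≤ 1 * (n * (2 * 2 ^ ex n)) := by
          rw [one_mul]
          calc 2 ^ ex n = 1 * (1 * 2 ^ ex n) := by ring
            _ ≤ n * (2 * 2 ^ ex n) :=
              Nat.mul_le_mul (by omega) (Nat.mul_le_mul_right _ (by norm_num))
      _ ≤ N * (N * (N * N)) := Nat.mul_le_mul hN1 h2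
      _ = RL N := by unfold RL; ring

/-- the group of all generators is everything at the end of the search -/
theorem outL_good : ∃ p0 : ℕ, ∀ (p : ℕ) [Fact p.Prime], p0 ≤ p →
    ∀ (t : ℕ → ℕ) (p0' : ℕ), p0' ≤ p →
      Most (2 ^ ex (Nat.size p))
        (outL p0' t p (sL p (Nat.size p)).1) (fun x => orderOf (x : ZMod p) = p - 1) ∧
      ((∀ q q' : ℕ, q.Prime → q'.Prime → q ∣ p - 1 → q' ∣ p - 1 →
        2 ^ ex (Nat.size p) < q → 2 ^ ex (Nat.size p) < q' → q = q') →
        ∀ x ∈ (outL p0' t p (sL p (Nat.size p)).1).head?, orderOf (x : ZMod p) = p - 1) := by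
  obtain ⟨C, p1, h1⟩ := search_good
  obtain ⟨p2, h2⟩ := index_le
  obtain ⟨n0, h3⟩ := size_facts
  refine ⟨max (max p1 p2) (2 ^ n0), fun p hpf hp t p0' hp0' => ?_⟩
  have hpp : p.Prime := hpf.out
  have hp1 : p1 ≤ p := le_trans (le_trans (le_max_left _ _) (le_max_left _ _)) hp
  have hp2 : p2 ≤ p := le_trans (le_trans (le_max_right _ _) (le_max_left _ _)) hp
  have hpn : 2 ^ n0 ≤ p := le_trans (le_max_right _ _) hp
  obtain ⟨N, hN, hN1, hstop, hNp, _⟩ := h1 p hp1
  rw [hN]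
  have hn : n0 ≤ Nat.size p := (Nat.lt_size.2 hpn).le
  unfold stopL at hstop
  rw [Bool.and_eq_true, decide_eq_true_eq] at hstop
  obtain ⟨hsz, hok⟩ := hstop
  obtain ⟨hs1, hs2⟩ := h3 _ N hn hsz
  have hidx := h2 p hp2 N hNp hsz
  have hB : 1 ≤ N + BE N := by omega
  have hcast : ∀ i ∈ Icc 1 (N + BE N), ((gL p N i : ℕ) : ZMod p) = (toU p (gL p N i) : ZMod p) :=
    fun i _ => gL_cast p N i
  have hokI := okC_index p (a := fun i => toU p (gL p N i)) hB hcast hok
  have hRL : 1 ≤ RL N := by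
    unfold RL
    exact Nat.mul_pos (Nat.mul_pos hN1 hN1) (Nat.mul_pos hN1 hN1)
  -- the group of all generators
  have htop : PrimRoot.genSub (fun i => toU p (gL p N i)) (N + BE N) = ⊤ := by
    rw [← Subgroup.index_eq_one]
    by_contra hne
    obtain ⟨q, hq, hqd⟩ := Nat.exists_prime_and_dvd hne
    have h4 : (PrimRoot.genSub (fun i => toU p (gL p N i)) (N + BE N)).index ≤
        (PrimRoot.genSub (aU p) N).index := by
      have h5 := Subgroup.index_dvd_of_le (genSub_le_gL p N)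
      exact Nat.le_of_dvd (Nat.pos_of_ne_zero Subgroup.index_ne_zero_of_finite) h5
    have h6 : q ≤ (PrimRoot.genSub (fun i => toU p (gL p N i)) (N + BE N)).index :=
      Nat.le_of_dvd (Nat.pos_of_ne_zero Subgroup.index_ne_zero_of_finite) hqd
    exact hokI q hq (by omega) hqd
  have hout : outL p0' t p N = rootN p (gL p N) (N + BE N) (RL N) ::
      candList p (gL p N) (N + BE N) (rn p) N (RL N) (RL N) := by
    unfold outL
    rw [if_neg (by omega)]
  rw [hout]
  constructor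
  · have hmost := most_cand_two p (a := fun i => toU p (gL p N i)) (a' := aU p) hB hcast
      (fun i _ => rn_cast p i) (M := 2 * 2 ^ ex (Nat.size p))
      (R := RL N) (T := RL N) hRL le_rfl hs1
      (fun q hq _ => by rw [htop, Subgroup.index_top]; exact hq.one_lt.not_ge ∘ Nat.le_of_dvd one_pos)
      (fun q hq hqR hqd => by
        have := Nat.le_of_dvd (Nat.pos_of_ne_zero Subgroup.index_ne_zero_of_finite) hqd
        omega)
    have hmost2 : Most (2 * 2 ^ ex (Nat.size p))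
        (candList p (gL p N) (N + BE N) (rn p) N (RL N) (RL N))
        (fun x => orderOf (x : ZMod p) = p - 1) := by
      refine hmost.mono ?_
      rintro x _ ⟨u, hxu, hu⟩
      rw [hxu, orderOf_units, hu]
    refine hmost2.cons _ ?_
    have hlen : (candList p (gL p N) (N + BE N) (rn p) N (RL N) (RL N)).length = RL N := by
      unfold candList
      rw [List.length_map, List.length_range]
    rw [hlen]
    have hn1 : 1 ≤ Nat.size p := Nat.size_pos.2 hpp.pos
    calc 2 * 2 ^ ex (Nat.size p) = 1 * 1 * (2 * 2 ^ ex (Nat.size p)) := by ring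
      _ ≤ N * Nat.size p * (2 * 2 ^ ex (Nat.size p)) :=
          Nat.mul_le_mul_right _ (Nat.mul_le_mul hN1 hn1)
      _ ≤ RL N := hs1
  · intro hbig x hx
    rw [List.head?_cons, Option.mem_some_iff] at hx
    rw [← hx]
    obtain ⟨u, hxu, hu⟩ := rootN_gen p (a := fun i => toU p (gL p N i)) (R := RL N) hB hcast
      (fun q q' hq hq' hqp hqp' h4 h5 => hbig q q' hq hq' hqp hqp' (by omega) (by omega))
    have h6 := order_of_gen p hxu hu
    rwa [htop, Subgroup.index_top, mul_one] at h6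

end Pool.Agent.PRL
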