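import Pool.Agent.PRL.Elt
import Pool.Agent.PRT.GN4

/-! # The search is short -/

set_option autoImplicit false

namespace Pool.Agent.PRL

open Pool.Agent.PRT Finset

theorem sL_spec (p k : ℕ) :
    (∃ i < k, stopL p (2 ^ i) = true ∧ (∀ j < i, stopL p (2 ^ j) = false) ∧
      sL p k = (2 ^ i, true)) ∨
    ((∀ j < k, stopL p (2 ^ j) = false) ∧ sL p k = (2 ^ k, false)) := by
  induction k with
  | zero => right; exact ⟨fun j hj => absurd hj (Nat.not_lt_zero _), rfl⟩
  | succ k ih =>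
    have hstep : sL p (k + 1) = stepL p (sL p k) := rfl
    rcases ih with ⟨i, hi, hs, hm, he⟩ | ⟨hm, he⟩
    · left
      refine ⟨i, by omega, hs, hm, ?_⟩
      rw [hstep, he]
      simp [stepL]
    · by_cases h : stopL p (2 ^ k) = true
      · left
        refine ⟨k, by omega, h, hm, ?_⟩
        rw [hstep, he]
        simp [stepL, h]
      · right
        rw [Bool.not_eq_true] at h
        constructor
        · intro j hj
          rcases Nat.lt_succ_iff_lt_or_eq.1 hj with h1 | h1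
          · exact hm j h1
          · rw [h1]; exact h
        · rw [hstep, he]
          simp [stepL, h, pow_succ, mul_comm]

/-- the exponent at which the search stops at the latest -/
theorem stop_at : ∃ C p0 : ℕ, ∀ (p : ℕ) [Fact p.Prime], p0 ≤ p →
    C * (ex (Nat.size p) + 1) + 1 < Nat.size p ∧
      stopL p (2 ^ (C * (ex (Nat.size p) + 1))) = true := by
  obtain ⟨C, hC⟩ := gen_top
  obtain ⟨s0, hs0⟩ := LHf.gene.small_exp (C + 1)
  refine ⟨C + 1, max C (2 ^ (s0 + 1)), fun p hpf hp => ?_⟩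
  have hpp : p.Prime := hpf.out
  have hpC : C ≤ p := le_trans (le_max_left _ _) hp
  have hps : 2 ^ (s0 + 1) ≤ p := le_trans (le_max_right _ _) hp
  obtain ⟨n, hn⟩ : ∃ n, n = Nat.size p := ⟨_, rfl⟩
  have hn0 : s0 + 1 < n := by rw [hn]; exact Nat.lt_size.2 hps
  have h1 : 2001 * ((C + 1) * (ex n + 1)) + 1 ≤ n := hs0 n (by omega)
  obtain ⟨m, hm⟩ : ∃ m, m = (C + 1) * (ex n + 1) := ⟨_, rfl⟩
  rw [← hm] at h1
  have hm1 : ex n + 1 ≤ m := by
    rw [hm]; exact Nat.le_mul_of_pos_left _ (Nat.succ_pos _)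
  rw [← hn, ← hm]
  refine ⟨by omega, ?_⟩
  have hNp : 2 ^ m < p := by
    have h2 : 2 ^ (n - 1) ≤ p := by
      have : n - 1 < Nat.size p := by rw [← hn]; omega
      exact Nat.lt_size.1 this
    exact (Nat.pow_lt_pow_right (by norm_num) (by omega)).trans_le h2
  have hCm : 2 ^ (C * (ex (Nat.size p) + 1)) ≤ 2 ^ m := by
    apply Nat.pow_le_pow_right (by norm_num)
    rw [hm, ← hn]
    exact Nat.mul_le_mul_right _ (by omega)
  unfold stopL
  rw [Bool.and_eq_true]
  constructor
  · rw [decide_eq_true_eq, ← hn, Nat.size_pow]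
    have h3 : n * Nat.size n < (ex n + 1) * (ex n + 1) := Nat.lt_succ_sqrt _
    exact h3.le.trans (Nat.mul_le_mul (by omega) (by omega))
  · refine okC_of_top p _ (Nat.le_add_right_of_le Nat.one_le_two_pow)
      (fun j _ => gL_cast p _ j) ?_
    rw [eq_top_iff, ← hC p hpC (2 ^ m) hNp hCm]
    exact genSub_gE_le_gL p (2 ^ m)

/-- the result of the search for large primes -/
theorem search_good : ∃ C p0 : ℕ, ∀ (p : ℕ) [Fact p.Prime], p0 ≤ p →
    ∃ N : ℕ, sL p (Nat.size p) = (N, true) ∧ 1 ≤ N ∧ stopL p N = true ∧ N < p ∧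
      N ≤ 2 ^ (C * (ex (Nat.size p) + 1)) := by
  obtain ⟨C, p0, h⟩ := stop_at
  refine ⟨C, p0, fun p hpf hp => ?_⟩
  have hpp : p.Prime := hpf.out
  obtain ⟨hi, hs⟩ := h p hp
  obtain ⟨i, hii⟩ : ∃ i, i = C * (ex (Nat.size p) + 1) := ⟨_, rfl⟩
  rw [← hii] at hi hs ⊢
  have hip : 2 ^ i < p := by
    have h2 : 2 ^ (Nat.size p - 1) ≤ p := Nat.lt_size.1 (by omega)
    exact (Nat.pow_lt_pow_right (by norm_num) (by omega)).trans_le h2
  rcases sL_spec p (Nat.size p) with ⟨j, hj, hjs, hjm, hje⟩ | ⟨hno, _⟩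
  · have hji : j ≤ i := by
      by_contra hlt
      push Not at hlt
      rw [hjm i hlt] at hs
      exact Bool.noConfusion hs
    have hle : 2 ^ j ≤ 2 ^ i := Nat.pow_le_pow_right (by norm_num) hji
    exact ⟨2 ^ j, hje, Nat.one_le_two_pow, hjs, by omega, hle⟩
  · rw [hno i (by omega)] at hs
    exact Bool.noConfusion hs

theorem sL_le (p k : ℕ) : (sL p k).1 ≤ 2 ^ k := by
  rcases sL_spec p k with ⟨i, hi, _, _, he⟩ | ⟨_, he⟩
  · rw [he]; exact Nat.pow_le_pow_right (by norm_num) hi.le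
  · rw [he]

/-- the largest end value of the search for primes with `n` digits -/
noncomputable def TL (n : ℕ) : ℕ := by
  classical
  exact ((Finset.range (2 ^ n)).filter (fun p => p.Prime ∧ Nat.size p = n)).sup
    (fun p => (sL p n).1)

theorem le_TL {p : ℕ} (hp : p.Prime) : (sL p (Nat.size p)).1 ≤ TL (Nat.size p) := by
  classical
  unfold TL
  refine Finset.le_sup (f := fun q => (sL q (Nat.size p)).1) (b := p) ?_
  rw [Finset.mem_filter, Finset.mem_range]
  exact ⟨Nat.lt_size_self p, hp, rfl⟩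

theorem half_TL : Half TL := by
  classical
  obtain ⟨C, p0, h⟩ := search_good
  refine ⟨C + Nat.size p0, fun n => ?_⟩
  unfold TL
  refine Finset.sup_le fun p hp => ?_
  rw [Finset.mem_filter, Finset.mem_range] at hp
  obtain ⟨hlt, hpp, hs⟩ := hp
  have : Fact p.Prime := ⟨hpp⟩
  rcases lt_or_ge p p0 with hsm | hge
  · have h1 : n ≤ Nat.size p0 := by rw [← hs]; exact Nat.size_le_size hsm.le
    refine (sL_le p n).trans (Nat.pow_le_pow_right (by norm_num) ?_)
    calc n ≤ Nat.size p0 := h1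
      _ ≤ (C + Nat.size p0) * 1 := by omega
      _ ≤ (C + Nat.size p0) * (ex n + 1) := Nat.mul_le_mul_left _ (by omega)
  · obtain ⟨N, hN, _, _, _, hle⟩ := h p hge
    rw [hs] at hN hle
    rw [hN]
    exact hle.trans (Nat.pow_le_pow_right (by norm_num) (Nat.mul_le_mul_right _ (by omega)))

end Pool.Agent.PRL
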