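import Pool.Agent.PRL.Comp
import Pool.Agent.PRL.Srch
import Pool.Agent.PRT.TCmach
import Pool.Agent.PRT.AN6b
import Pool.Agent.PRT.MainList
import Pool.Agent.PRT.AN5b
import Pool.Agent.PRT.APT4

/-! # The machine -/

set_option autoImplicit false

namespace Pool.Agent.PRL

open Pool.Agent.PRT Pool.NPC Pool.NPC.Enc Pool.NPC.Tr Polynomial

/-- the output for the prime `p` and the end value `N` of the search: for `p < p0` a table; otherwise
first the residue `rootN`, then the candidates -/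
def outL (p0 : ℕ) (t : ℕ → ℕ) (p N : ℕ) : List ℕ :=
  if p < p0 then [t p] else
    rootN p (gL p N) (N + BE N) (RL N) ::
      candList p (gL p N) (N + BE N) (rn p) N (RL N) (RL N)

/-- the function of the machine -/
def funL (p0 : ℕ) (t : ℕ → ℕ) (p : Nat.Primes) : List ℕ :=
  outL p0 t p (sL p (Nat.size p)).1

theorem BT.cand_gL : BT (fun x : (List Bool × (ℕ × Bool)) × ℕ =>
    PRT.candN (PRT.bval x.1.1) (fun i => PRL.gL (PRT.bval x.1.1) x.1.2.1 i) (x.1.2.1 + PRL.BE x.1.2.1)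
      (fun i => PRT.rn (PRT.bval x.1.1) i) x.1.2.1 (PRL.RL x.1.2.1) (x.2 + 1)) := by
  have hp : BT (fun x : (List Bool × (ℕ × Bool)) × ℕ => PRT.bval x.1.1) :=
    BT.bval (PT.fst' (PT.fst' PT.id))
  have hN : PT (fun x : (List Bool × (ℕ × Bool)) × ℕ => x.1.2.1) :=
    PT.fst' (PT.snd' (PT.fst' PT.id))
  have hg : BT (fun y : ((List Bool × (ℕ × Bool)) × ℕ) × ℕ =>
      PRL.gL (PRT.bval y.1.1.1) y.1.1.2.1 y.2) :=
    BT.gL (BT.bval (PT.fst' (PT.fst' (PT.fst' PT.id))))
      (PT.fst' (PT.snd' (PT.fst' (PT.fst' PT.id)))) (PT.snd' PT.id)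
  have hg' : BT (fun y : ((List Bool × (ℕ × Bool)) × ℕ) × ℕ =>
      PRT.rn (PRT.bval y.1.1.1) y.2) :=
    BT.rn (BT.bval (PT.fst' (PT.fst' (PT.fst' PT.id)))) (BT.ofUnary (PT.snd' PT.id))
  exact BT.candN (g := fun y : ((List Bool × (ℕ × Bool)) × ℕ) × ℕ =>
      PRL.gL (PRT.bval y.1.1.1) y.1.1.2.1 y.2)
    (g' := fun y : ((List Bool × (ℕ × Bool)) × ℕ) × ℕ => PRT.rn (PRT.bval y.1.1.1) y.2)
    hp hg (PT.add hN (PT.BE hN)) hg' hN (PT.RL hN) (BT.ofUnary (PT.succ PT.snd))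

theorem BT.root_gL : BT (fun x : List Bool × (ℕ × Bool) =>
    PRT.rootN (PRT.bval x.1) (fun i => PRL.gL (PRT.bval x.1) x.2.1 i) (x.2.1 + PRL.BE x.2.1)
      (PRL.RL x.2.1)) := by
  have hp : BT (fun x : List Bool × (ℕ × Bool) => PRT.bval x.1) := BT.bval (PT.fst' PT.id)
  have hN : PT (fun x : List Bool × (ℕ × Bool) => x.2.1) := PT.fst' (PT.snd' PT.id)
  have hg : BT (fun y : (List Bool × (ℕ × Bool)) × ℕ =>
      PRL.gL (PRT.bval y.1.1) y.1.2.1 y.2) :=
    BT.gL (BT.bval (PT.fst' (PT.fst' PT.id))) (PT.fst' (PT.snd' (PT.fst' PT.id)))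
      (PT.snd' PT.id)
  exact BT.rootN (g := fun y : (List Bool × (ℕ × Bool)) × ℕ =>
      PRL.gL (PRT.bval y.1.1) y.1.2.1 y.2) hp hg (PT.add hN (PT.BE hN)) (PT.RL hN)

theorem PT.outL (p0 : ℕ) (t : ℕ → ℕ) : PT (fun x : List Bool × (ℕ × Bool) =>
    encList (outL p0 t (bval x.1) x.2.1)) := by
  have hp : BT (fun x : List Bool × (ℕ × Bool) => PRT.bval x.1) := BT.bval (PT.fst' PT.id)
  have hN : PT (fun x : List Bool × (ℕ × Bool) => x.2.1) := PT.fst' (PT.snd' PT.id)
  have hsmall := PT.enc1 (BT.table t p0 hp (BT.const 0))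
  have hroot := PT.enc1 BT.root_gL
  have hcand := PT.encMap BT.cand_gL (PT.RL hN)
  have hbig := PT.append hroot hcand
  refine (PT.ite (BT.lt hp (BT.const p0)) hsmall hbig).congr fun x => ?_
  by_cases h : bval x.1 < p0
  · rw [PRL.outL, if_pos h, if_pos h, if_pos h]
    simp [encList]
  · rw [PRL.outL, if_neg h, if_neg h, encList, List.flatMap_cons, candList]
    rfl

/-- the machine and its running time -/
theorem machineL (p0 : ℕ) (t : ℕ → ℕ) :
    ∃ m : Turing.TM2ComputableInTime (fun p : Nat.Primes => Nat.bits p) encList (funL p0 t),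
      Half m.time := by
  have h1 : MC (fun l : List Bool => encList (outL p0 t (bval (srchL l).1) (srchL l).2.1))
      (fun l => (sL (bval l) l.length).1) :=
    MC.comp (g := fun x : List Bool × (ℕ × Bool) => encList (outL p0 t (bval x.1) x.2.1))
      (PT.outL p0 t) MC.srchL
  obtain ⟨Q, m, hm⟩ := h1.machine (ea := fun p : Nat.Primes => Nat.bits p) (eb := encList)
    (h := funL p0 t) (fun p => by
      rw [srchL_eq]
      show encList (outL p0 t (bval (Nat.bits p)) (sL (bval (Nat.bits p)) (Nat.bits p).length).1) =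
        encList (outL p0 t p (sL p (Nat.size p)).1)
      rw [bval_bits, Nat.size_eq_bits_len]) TL (fun p => by
      rw [bval_bits, Nat.size_eq_bits_len]
      exact le_TL p.2)
  exact ⟨m, (half_TL.poly Q).mono hm⟩

end Pool.Agent.PRL
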