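import Pool.Agent.PRL.Def
import Pool.Agent.PRT.GN1b
import Pool.Agent.PRT.AN2

/-! # The computed square roots -/

set_option autoImplicit false

namespace Pool.Agent.PRL

open Pool.Agent.PRT Finset

theorem mem_of_pow {G : Type*} [CommGroup G] [Finite G] [IsCyclic G] {x y : G} {n : ℕ}
    (hn : orderOf y = n) (hx : x ^ n = 1) : x ∈ Subgroup.zpowers y := by
  classical
  cases nonempty_fintype G
  have hn0 : 0 < n := hn ▸ orderOf_pos y
  have h1 := IsCyclic.card_pow_eq_one_le (α := G) hn0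
  have h2 : (Subgroup.zpowers y : Set G).toFinset ⊆ Finset.univ.filter (fun a => a ^ n = 1) := by
    intro b hb
    rw [Set.mem_toFinset] at hb
    obtain ⟨m, hm⟩ := Subgroup.mem_zpowers_iff.1 hb
    rw [Finset.mem_filter]
    refine ⟨Finset.mem_univ _, ?_⟩
    rw [← hm, ← zpow_natCast, ← zpow_mul, mul_comm, zpow_mul, zpow_natCast, ← hn,
      pow_orderOf_eq_one, one_zpow]
  have h3 : (Subgroup.zpowers y : Set G).toFinset.card = n := by
    rw [Set.toFinset_card, ← hn, ← Nat.card_eq_fintype_card]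
    exact Nat.card_zpowers y
  have h4 := Finset.eq_of_subset_of_card_le h2 (by rw [h3]; exact h1)
  have h5 : x ∈ Finset.univ.filter (fun a => a ^ n = 1) := by simp [hx]
  rw [← h4, Set.mem_toFinset] at h5
  exact h5

theorem pow_half (p : ℕ) [Fact p.Prime] {x : (ZMod p)ˣ} {e : ℕ}
    (h : orderOf x = 2 ^ (e + 1)) : x ^ (2 ^ e) = -1 := by
  have h1 : (x ^ (2 ^ e)) ^ 2 = 1 := by
    rw [← pow_mul, ← pow_succ, ← h, pow_orderOf_eq_one]
  have h2 : x ^ (2 ^ e) ≠ 1 := by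
    intro h1
    have h2 := orderOf_dvd_of_pow_eq_one h1
    rw [h, Nat.pow_dvd_pow_iff_le_right (by norm_num)] at h2
    omega
  have h3 : ((x ^ (2 ^ e) : (ZMod p)ˣ) : ZMod p) ^ 2 = 1 := by
    rw [← Units.val_pow_eq_pow_val, h1, Units.val_one]
  have h4 : (((x ^ (2 ^ e) : (ZMod p)ˣ) : ZMod p) - 1) *
      (((x ^ (2 ^ e) : (ZMod p)ˣ) : ZMod p) + 1) = 0 := by linear_combination h3
  rcases (mul_eq_zero.1 h4).imp sub_eq_zero.1 eq_neg_of_add_eq_zero_left with h | h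
  · exact absurd (Units.ext (by rw [h, Units.val_one])) h2
  · exact Units.ext (by rw [h, Units.val_neg, Units.val_one])

theorem pow_cofac_size (p : ℕ) [Fact p.Prime] (x : (ZMod p)ˣ) :
    (x ^ PrimRoot.cofac (p - 1) 2) ^ (2 ^ Nat.size p) = 1 := by
  have hp : p.Prime := Fact.out
  have hN : p - 1 ≠ 0 := by have := hp.two_le; omega
  have hc : Nat.card (ZMod p)ˣ = p - 1 := by
    rw [Nat.card_eq_fintype_card, ZMod.card_units]
  have h1 := PrimRoot.pow_cofac_pow x 2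
  rw [hc] at h1
  have h2 : (p - 1).factorization 2 ≤ Nat.size p := by
    by_contra h
    push Not at h
    have h2 : 2 ^ Nat.size p ≤ 2 ^ (p - 1).factorization 2 :=
      Nat.pow_le_pow_right (by norm_num) h.le
    have h3 := Nat.ordProj_le 2 hN
    have h4 := Nat.lt_size_self p
    omega
  obtain ⟨m, hm⟩ := Nat.exists_eq_add_of_le h2
  rw [hm, pow_add, pow_mul, h1, one_pow]

/-- the order of the 2-part of `x` -/
noncomputable def o2 (p : ℕ) [Fact p.Prime] (x : (ZMod p)ˣ) : ℕ :=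
  orderOf (x ^ PrimRoot.cofac (p - 1) 2)

/-- the unit of `zl` -/
noncomputable def zU (p N : ℕ) [Fact p.Prime] : (ZMod p)ˣ :=
  aU p (io p (fun i => rn p i) N 2) ^ PrimRoot.cofac (p - 1) 2

theorem zl_cast (p : ℕ) [Fact p.Prime] {N : ℕ} (hN : 1 ≤ N) :
    ((zl p N : ℕ) : ZMod p) = (zU p N : ZMod p) :=
  iel_cast p hN (fun i _ => rn_cast p i) Nat.prime_two

theorem fl_eq (p : ℕ) [Fact p.Prime] {N : ℕ} (hN : 1 ≤ N) :
    orderOf (zU p N) = 2 ^ fl p N :=
  (ev_eq p Nat.prime_two (zU p N) (zl_cast p hN) (pow_cofac_size p _)).symm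

theorem o2_le (p : ℕ) [hpf : Fact p.Prime] (hp2 : p ≠ 2) {N i : ℕ} (hi : i ∈ Icc 1 N) :
    o2 p (aU p i) ≤ 2 ^ fl p N := by
  have hpp : p.Prime := hpf.out
  have hi' := Finset.mem_Icc.1 hi
  have hN : 1 ≤ N := by omega
  have hN0 : p - 1 ≠ 0 := by have := hpp.two_le; omega
  have hadm := io_adm p (g := fun i => rn p i) hN (fun i _ => rn_cast p i) 2
  have h2mem : 2 ∈ PrimRoot.smallPrimes 2 (p - 1) := by
    rw [PrimRoot.mem_smallPrimes]
    refine ⟨⟨Nat.prime_two, ?_, hN0⟩, le_rfl⟩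
    have := hpp.eq_two_or_odd
    omega
  have h1 := (hadm 2 h2mem).2 i hi
  rw [← fl_eq p hN]
  exact h1

theorem o2_pow (p : ℕ) [hpf : Fact p.Prime] (x : (ZMod p)ˣ) : ∃ e, o2 p x = 2 ^ e := by
  have h := orderOf_dvd_of_pow_eq_one (pow_cofac_size p x)
  obtain ⟨e, _, he⟩ := (Nat.dvd_prime_pow Nat.prime_two).1 h
  exact ⟨e, he⟩

/-- The product of two units whose 2-parts have both the largest order or both not has a 2-part in
the group generated by the square of `zU`. -/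
theorem mem_sq (p : ℕ) [hpf : Fact p.Prime] {N : ℕ} (hN : 1 ≤ N) {x y : (ZMod p)ˣ}
    (hx : o2 p x ≤ 2 ^ fl p N) (hy : o2 p y ≤ 2 ^ fl p N)
    (hxy : o2 p x = 2 ^ fl p N ↔ o2 p y = 2 ^ fl p N) :
    (x * y) ^ PrimRoot.cofac (p - 1) 2 ∈ Subgroup.zpowers (zU p N ^ 2) := by
  have hz := fl_eq p hN
  rw [mul_pow]
  rcases Nat.eq_zero_or_pos (fl p N) with h0 | h0
  · rw [h0, pow_zero] at hx hy
    have h1 : ∀ z : (ZMod p)ˣ, o2 p z ≤ 1 → z ^ PrimRoot.cofac (p - 1) 2 = 1 := by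
      intro z hz
      rw [← orderOf_eq_one_iff]
      exact le_antisymm hz (orderOf_pos _)
    rw [h1 x hx, h1 y hy, mul_one]
    exact Subgroup.one_mem _
  obtain ⟨f, hf⟩ := Nat.exists_eq_succ_of_ne_zero h0.ne'
  rw [hf, Nat.succ_eq_add_one] at hz hx hy hxy
  have h3 : orderOf (zU p N ^ 2) = 2 ^ f := by
    rw [orderOf_pow, hz, Nat.gcd_eq_right (dvd_pow_self 2 (by omega)), pow_succ,
      Nat.mul_div_cancel _ (by norm_num)]
  refine mem_of_pow h3 ?_
  rw [mul_pow]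
  by_cases h : o2 p x = 2 ^ (f + 1)
  · rw [pow_half p h, pow_half p (hxy.1 h), neg_mul_neg, one_mul]
  · have h' : ¬ o2 p y = 2 ^ (f + 1) := fun h1 => h (hxy.2 h1)
    have key : ∀ z : (ZMod p)ˣ, o2 p z ≤ 2 ^ (f + 1) → o2 p z ≠ 2 ^ (f + 1) →
        (z ^ PrimRoot.cofac (p - 1) 2) ^ 2 ^ f = 1 := by
      intro z h1 h2
      obtain ⟨e, he⟩ := o2_pow p z
      rw [he] at h1 h2
      have h4 : e ≤ f + 1 := (Nat.pow_le_pow_iff_right (by norm_num)).1 h1
      have h5 : e ≠ f + 1 := fun h5 => h2 (by rw [h5])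
      rw [← orderOf_dvd_iff_pow_eq_one]
      change o2 p z ∣ _
      rw [he]
      exact pow_dvd_pow 2 (by omega)
    rw [key x hx h, key y hy h', one_mul]

/-- the condition on the primes in `genE` -/
def AL (p N : ℕ) [Fact p.Prime] (q : ℕ) : Prop := o2 p (aU p q) = 2 ^ fl p N

theorem aU_val (p : ℕ) [hpf : Fact p.Prime] {q : ℕ} (hq : q.Prime) (hqp : q < p) :
    (aU p q : ZMod p) = (q : ZMod p) := by
  have h3 : (q : ZMod p) ≠ 0 := by
    rw [Ne, ZMod.natCast_eq_zero_iff]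
    intro h
    have := Nat.le_of_dvd hq.pos h
    omega
  unfold aU
  rw [if_neg hq.one_lt.ne']
  simp [PrimRoot.res, h3]

theorem rl_sq (p : ℕ) [hpf : Fact p.Prime] {N : ℕ} (hN : N < p) (q q' : ℕ) (hq : q.Prime)
    (hq' : q'.Prime) (hqN : q * q' ≤ N) (hA : AL p N q ↔ AL p N q') :
    ((rl p N (q * q') : ℕ) : ZMod p) ^ 2 = ((q * q' : ℕ) : ZMod p) := by
  have h1 : q ≤ N := (Nat.le_mul_of_pos_right q hq'.pos).trans hqN
  have h2 : q' ≤ N := (Nat.le_mul_of_pos_left q' hq.pos).trans hqN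
  have hN1 : 1 ≤ N := hq.one_lt.le.trans h1
  have hp2 : p ≠ 2 := by
    have := hq.two_le
    have : 2 * 2 ≤ q * q' := Nat.mul_le_mul hq.two_le hq'.two_le
    omega
  unfold rl
  refine sq_spec p hp2 (zl_cast p hN1) (δ := aU p q * aU p q') ?_ (fl_eq p hN1) ?_
  · rw [Units.val_mul, aU_val p hq (by omega), aU_val p hq' (by omega)]
    push_cast
    rfl
  · exact mem_sq p hN1 (o2_le p hp2 (Finset.mem_Icc.2 ⟨hq.one_lt.le, h1⟩))
      (o2_le p hp2 (Finset.mem_Icc.2 ⟨hq'.one_lt.le, h2⟩)) hA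

end Pool.Agent.PRL
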